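import Pool.Agent.Lib.MP_b9b22b_co.AR.Main
import Pool.Agent.Lib.MP_b9b22b_co.AR.Uni
import Pool.Agent.Lib.MP_b9b22b_co.Lin.H63.Graph
import Pool.Agent.Lib.MP_b9b22b_co.Lin.H63.Basic
import Pool.Agent.Lib.MP_b9b22b_co.Lin.H63.Mix
import Pool.Agent.Lib.MP_b9b22b_co.Lin.H63.Dec
import Pool.Agent.Lib.MP_b9b22b_co.Lin.H63.Block
import Pool.Agent.Lib.MP_b9b22b_co.Lin.H63.Final
import Pool.Agent.Lib.MP_b9b22b_co.Lin.H72.Ratio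
import Pool.Agent.Lib.MP_b9b22b_co.Lin.H72.Uni
import Pool.Agent.Lib.MP_b9b22b_co.Lin.H82.Templ
import Pool.Agent.Lib.MP_b9b22b_co.Lin.H83.Sys
import Pool.Agent.Lib.MP_b9b22b_co.Lin.H89.Emb
import Pool.Agent.Lib.MP_90aff6_co.CT.Pnt

/-!
The asymptotic values of the largest and the smallest possible `i`-th adjacency eigenvalue of a graph
on `n` vertices, and the point where the formula stops to hold.
-/

set_option autoImplicit false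

namespace Pool.Agent.Results.MP_b9b22b_co.AsymptoticRange

open Pool.Agent.Lib.MP_b9b22b_co

/-- For every `ε > 0` there is `C` such that for all `i ≥ 1`, `k ≥ 0` and `n = i + k`:

* if `C ≤ i` and `(1 + ε) n ^ (2 / 3) ≤ k`, then `M_i(n)` lies between `(1 - ε)` and `(1 + ε)` times
  `√(n k / i) / 2`;
* if `C ≤ k` and `(1 + ε) n ^ (2 / 3) ≤ i`, then `m_i(n)` lies between `-(1 + ε)` and `-(1 - ε)`
  times `√(n i / k) / 2`;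
* if `C ≤ k` and `k² ≤ 2 n`, then `M_i(n) ≤ (1 + ε) (2 n / (4 n - k²)) √k / 2`;
* if `C ≤ i` and `i² ≤ 2 n`, then `m_i(n) ≥ -(1 + ε) (2 n / (4 n - i²)) √i / 2`;
* if `2 n ≤ k (k + 2)` and `k` is a power of four, then `M_i(n) ≥ √k / 2 - 1`;
* if `32 n ≤ k²`, then `M_i(n) ≥ √k / 4 - 1`;
* if `k ≥ 1`, `2 n ≤ (i - 2) i` and `i - 2` is a power of four, then `m_i(n) ≤ -√(i - 2) / 2`;
* if `k ≥ 1` and `32 n ≤ (i - 2)²`, then `m_i(n) ≤ -√(i - 2) / 4`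
  (in the last two clauses `i - 2` is the difference of natural numbers, 0 for `i = 1`). -/
theorem result :
    ∀ ε : ℝ, 0 < ε → ∃ C : ℕ, ∀ n i k : ℕ, n = i + k → 1 ≤ i →
      (C ≤ i → (1 + ε) * (n : ℝ) ^ ((2 : ℝ) / 3) ≤ k → ∃ x, IsGreatest (eigSet i n) x ∧
        (1 - ε) * (√((n : ℝ) * k / i) / 2) ≤ x ∧ x ≤ (1 + ε) * (√((n : ℝ) * k / i) / 2)) ∧
      (C ≤ k → (1 + ε) * (n : ℝ) ^ ((2 : ℝ) / 3) ≤ i → ∃ x, IsLeast (eigSet i n) x ∧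
        -(1 + ε) * (√((n : ℝ) * i / k) / 2) ≤ x ∧ x ≤ -(1 - ε) * (√((n : ℝ) * i / k) / 2)) ∧
      (C ≤ k → k ^ 2 ≤ 2 * n → ∃ x, IsGreatest (eigSet i n) x ∧
        x ≤ (1 + ε) * (2 * n / (4 * n - (k : ℝ) ^ 2)) * (√(k : ℝ) / 2)) ∧
      (C ≤ i → i ^ 2 ≤ 2 * n → ∃ x, IsLeast (eigSet i n) x ∧
        -((1 + ε) * (2 * n / (4 * n - (i : ℝ) ^ 2)) * (√(i : ℝ) / 2)) ≤ x) ∧
      (2 * n ≤ k * (k + 2) → (∃ t : ℕ, k = 4 ^ t) → ∃ x, IsGreatest (eigSet i n) x ∧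
        √(k : ℝ) / 2 - 1 ≤ x) ∧
      (32 * n ≤ k ^ 2 → ∃ x, IsGreatest (eigSet i n) x ∧ √(k : ℝ) / 4 - 1 ≤ x) ∧
      (1 ≤ k → 2 * n ≤ (i - 2) * i → (∃ t : ℕ, i - 2 = 4 ^ t) → ∃ x, IsLeast (eigSet i n) x ∧
        x ≤ -(√((i - 2 : ℕ) : ℝ) / 2)) ∧
      (1 ≤ k → 32 * n ≤ (i - 2) ^ 2 → ∃ x, IsLeast (eigSet i n) x ∧
        x ≤ -(√((i - 2 : ℕ) : ℝ) / 4)) := by
  have hDec : Lin.DecStatement := Lin.H63.dec (Lin.H89.emb Lin.H63.mix)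
  have hBlock : Lin.BlockStatement := Lin.H63.block Lin.H82.templ hDec Lin.sys Lin.H63.graph
  have hUni : Lin.UniStatement :=
    Lin.H72.uni (Lin.H72.ratio hBlock Lin.H63.mono) Lin.H63.mono Lin.H63.blow
  exact AR.main (AR.uni AR.lines hUni Lin.H63.mono Pool.Agent.Lib.MP_90aff6_co.CT.prime_between)

end Pool.Agent.Results.MP_b9b22b_co.AsymptoticRange
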