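import Pool.Agent.Lib.MP_b9b22b_co.Relative
import Pool.Agent.Lib.MP_b9b22b_co.Hadamard

/-!
Bounds for the `i`-th largest adjacency eigenvalue of a graph on `n` vertices which are effective
when `i` and `n` are large simultaneously, with exact values of `M_i(n)` and `m_i(n)`.
-/

set_option autoImplicit false

namespace Pool.Agent.Results.MP_b9b22b_co.RelativeBounds

open Pool.Agent.Lib.MP_b9b22b_co

/-- For `2 ≤ i ≤ n` every graph on `n` vertices satisfies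
`-(√((n-1)(i-1)/(n-i+1)) + 1)/2 ≤ λ_i ≤ (√((n-1)(n-i+1)/(i-1)) - 1)/2`, and both bounds are attained
for `n = 4 ^ (r+1)`, `i = 2 * 4 ^ r - 2 ^ r + 1`, where they are `-2 ^ r` and `2 ^ r`. -/
theorem result :
    (∀ (n i : ℕ) (G : SimpleGraph (Fin n)), 2 ≤ i → i ≤ n →
      -((√(((n : ℝ) - 1) * (i - 1) / (n - i + 1)) + 1) / 2) ≤ lam G i ∧
      lam G i ≤ (√(((n : ℝ) - 1) * (n - i + 1) / (i - 1)) - 1) / 2) ∧
    (∀ r : ℕ,
      IsGreatest (eigSet (2 * 4 ^ r - 2 ^ r + 1) (4 ^ (r + 1))) (2 ^ r) ∧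
      IsLeast (eigSet (2 * 4 ^ r - 2 ^ r + 1) (4 ^ (r + 1))) (-2 ^ r)) := by
  have hU : ∀ (n i : ℕ) (G : SimpleGraph (Fin n)), 2 ≤ i → i ≤ n →
      -((√(((n : ℝ) - 1) * (i - 1) / (n - i + 1)) + 1) / 2) ≤ lam G i ∧
      lam G i ≤ (√(((n : ℝ) - 1) * (n - i + 1) / (i - 1)) - 1) / 2 := by
    intro n i G hi hin
    have h := lam_le_rel G hi (by rw [Fintype.card_fin]; exact hin)
    have h' := le_lam_rel G (i := i) (by omega) (by rw [Fintype.card_fin]; exact hin)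
    rw [Fintype.card_fin] at h h'
    exact ⟨h', h⟩
  refine ⟨hU, fun r => ?_⟩
  have hm : 1 ≤ 2 ^ r := Nat.one_le_two_pow
  have h4 : (4 : ℕ) ^ r = (2 ^ r) ^ 2 := by rw [← pow_mul, mul_comm r 2, pow_mul]; norm_num
  have hn : (4 : ℕ) ^ (r + 1) = 4 * (2 ^ r) ^ 2 := by rw [pow_succ, h4]; ring
  rw [h4, hn]
  set m : ℕ := 2 ^ r with hmdef
  have hmr : (2 : ℝ) ^ r = m := by rw [hmdef]; push_cast; rfl
  rw [hmr]
  have hm' : (1 : ℝ) ≤ m := by exact_mod_cast hm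
  have hle : m ≤ 2 * m ^ 2 := by nlinarith
  have hlt : m < 2 * m ^ 2 := by nlinarith
  have hcast : ((2 * m ^ 2 - m + 1 : ℕ) : ℝ) = 2 * (m : ℝ) ^ 2 - m + 1 := by
    push_cast [Nat.cast_sub hle]; ring
  -- the value of the two bounds
  have hA : ((4 * m ^ 2 : ℕ) : ℝ) - 1 = (2 * m - 1) * (2 * m + 1) := by push_cast; ring
  have hB : ((4 * m ^ 2 : ℕ) : ℝ) - ((2 * m ^ 2 - m + 1 : ℕ) : ℝ) + 1 = m * (2 * m + 1) := by
    rw [hcast]; push_cast; ring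
  have hC : ((2 * m ^ 2 - m + 1 : ℕ) : ℝ) - 1 = m * (2 * m - 1) := by rw [hcast]; ring
  have hne : (m : ℝ) ≠ 0 := by positivity
  have hne1 : 2 * (m : ℝ) - 1 ≠ 0 := by nlinarith
  have hne2 : 2 * (m : ℝ) + 1 ≠ 0 := by positivity
  have s1 : √((((4 * m ^ 2 : ℕ) : ℝ) - 1) * (((4 * m ^ 2 : ℕ) : ℝ) - ((2 * m ^ 2 - m + 1 : ℕ) : ℝ) + 1)
      / (((2 * m ^ 2 - m + 1 : ℕ) : ℝ) - 1)) = 2 * m + 1 := by
    rw [hA, hB, hC]
    have : (2 * (m : ℝ) - 1) * (2 * m + 1) * (m * (2 * m + 1)) / (m * (2 * m - 1)) =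
        (2 * m + 1) ^ 2 := by field_simp
    rw [this, Real.sqrt_sq (by positivity)]
  have s2 : √((((4 * m ^ 2 : ℕ) : ℝ) - 1) * (((2 * m ^ 2 - m + 1 : ℕ) : ℝ) - 1)
      / (((4 * m ^ 2 : ℕ) : ℝ) - ((2 * m ^ 2 - m + 1 : ℕ) : ℝ) + 1)) = 2 * m - 1 := by
    rw [hA, hB, hC]
    have : (2 * (m : ℝ) - 1) * (2 * m + 1) * (m * (2 * m - 1)) / (m * (2 * m + 1)) =
        (2 * m - 1) ^ 2 := by field_simp
    rw [this, Real.sqrt_sq (by linarith)]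
  have hi2 : 2 ≤ 2 * m ^ 2 - m + 1 := by omega
  have hin : 2 * m ^ 2 - m + 1 ≤ 4 * m ^ 2 := by omega
  have hb : ∀ G : SimpleGraph (Fin (4 * m ^ 2)),
      -(m : ℝ) ≤ lam G (2 * m ^ 2 - m + 1) ∧ lam G (2 * m ^ 2 - m + 1) ≤ m := by
    intro G
    obtain ⟨h1, h2⟩ := hU (4 * m ^ 2) (2 * m ^ 2 - m + 1) G hi2 hin
    rw [s2] at h1
    rw [s1] at h2
    constructor <;> linarith
  have hcard : Fintype.card (Fin (4 * m ^ 2)) = Fintype.card (Fin 4 × (Fin r → Fin 4)) := by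
    rw [Fintype.card_fin, Fintype.card_prod, Fintype.card_fun, Fintype.card_fin, Fintype.card_fin,
      h4]
  let e : Fin (4 * m ^ 2) ≃ Fin 4 × (Fin r → Fin 4) := Fintype.equivOfCardEq hcard
  have : Nonempty (Fin (4 * m ^ 2)) := ⟨⟨0, by positivity⟩⟩
  have r1 : ((-2 : ℤ) : ℝ) * 2 ^ r = -(2 * ((2 ^ r : ℕ) : ℝ)) := by push_cast; ring
  have r2 : ((2 : ℤ) : ℝ) * 2 ^ r = 2 * ((2 ^ r : ℕ) : ℝ) := by push_cast; ring
  constructor
  · have P : Hada (Fin (4 * m ^ 2)) m (-(2 * (m : ℝ))) := by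
      have := (hadaMinus r).map e
      rw [r1] at this
      exact this
    refine ⟨⟨P.graph, le_antisymm (hb _).2 (P.le_lam hm)⟩, ?_⟩
    rintro x ⟨H, rfl⟩
    exact (hb H).2
  · have P : Hada (Fin (4 * m ^ 2)) m (2 * (m : ℝ)) := by
      have := (hadaPlus r).map e
      rw [r2] at this
      exact this
    refine ⟨⟨P.graph, le_antisymm (P.lam_le hm) (hb _).1⟩, ?_⟩
    rintro x ⟨H, rfl⟩
    exact (hb H).1

end Pool.Agent.Results.MP_b9b22b_co.RelativeBounds
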