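import Pool.Agent.Lib.MP_b9b22b_co.Bounds
import Pool.Agent.Lib.MP_b9b22b_co.Patterns

/-!
General upper and lower bounds for the `i`-th adjacency eigenvalue, both linear in the number of
vertices, attained for the third, fourth, eighth and twenty-fourth largest eigenvalue and for the
second, third, seventh and twenty-third smallest one.
-/

set_option autoImplicit false

namespace Pool.Agent.Results.MP_b9b22b_co.SharpBounds

open Pool.Agent.Lib.MP_b9b22b_co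

theorem upper :
    (∀ (n i : ℕ) (G : SimpleGraph (Fin n)), 2 ≤ i → i ≤ n →
      lam G i ≤ (2 + ((i : ℝ) - 2) * √((i : ℝ) + 1)) / (2 * i * (i - 1)) * n - 1) ∧
    (∀ k : ℕ, 1 ≤ k →
      IsGreatest (eigSet 3 (3 * k)) (k - 1) ∧
      IsGreatest (eigSet 4 (12 * k)) ((1 + √5) * k - 1) ∧
      IsGreatest (eigSet 8 (28 * k)) (5 * k - 1) ∧
      IsGreatest (eigSet 24 (276 * k)) (28 * k - 1)) := by
  have hU : ∀ (n i : ℕ) (G : SimpleGraph (Fin n)), 2 ≤ i → i ≤ n →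
      lam G i ≤ (2 + ((i : ℝ) - 2) * √((i : ℝ) + 1)) / (2 * i * (i - 1)) * n - 1 := by
    intro n i G hi hin
    have h := lam_le G hi (by rw [Fintype.card_fin]; exact hin)
    rwa [Fintype.card_fin] at h
  refine ⟨hU, fun k hk => ?_⟩
  have s4 : √(4 : ℝ) = 2 := by
    rw [show (4 : ℝ) = 2 ^ 2 by norm_num]; exact Real.sqrt_sq (by norm_num)
  have s9 : √(9 : ℝ) = 3 := by
    rw [show (9 : ℝ) = 3 ^ 2 by norm_num]; exact Real.sqrt_sq (by norm_num)
  have s25 : √(25 : ℝ) = 5 := by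
    rw [show (25 : ℝ) = 5 ^ 2 by norm_num]; exact Real.sqrt_sq (by norm_num)
  refine ⟨?_, ?_, ?_, ?_⟩
  · have hub : ∀ G : SimpleGraph (Fin (3 * k)), lam G 3 ≤ (k : ℝ) - 1 := by
      intro G
      refine (hU (3 * k) 3 G (by norm_num) (by omega)).trans (le_of_eq ?_)
      push_cast
      rw [show (3 : ℝ) + 1 = 4 by norm_num, s4]
      ring
    obtain ⟨G, hG⟩ := threeCliques.upper hk (n := 3 * k) (by simp) (by omega)
    refine ⟨⟨G, le_antisymm (hub G) ?_⟩, ?_⟩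
    · linarith
    · rintro x ⟨H, rfl⟩
      exact hub H
  · have hub : ∀ G : SimpleGraph (Fin (12 * k)), lam G 4 ≤ (1 + √5) * (k : ℝ) - 1 := by
      intro G
      refine (hU (12 * k) 4 G (by norm_num) (by omega)).trans (le_of_eq ?_)
      push_cast
      rw [show (4 : ℝ) + 1 = 5 by norm_num]
      ring
    obtain ⟨G, hG⟩ := ico.upper hk (n := 12 * k) (by simp) (by omega)
    exact ⟨⟨G, le_antisymm (hub G) hG⟩, by rintro x ⟨H, rfl⟩; exact hub H⟩
  · have hub : ∀ G : SimpleGraph (Fin (28 * k)), lam G 8 ≤ 5 * (k : ℝ) - 1 := by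
      intro G
      refine (hU (28 * k) 8 G (by norm_num) (by omega)).trans (le_of_eq ?_)
      push_cast
      rw [show (8 : ℝ) + 1 = 9 by norm_num, s9]
      ring
    obtain ⟨G, hG⟩ := t8.upper hk (n := 28 * k) (by simp) (by omega)
    refine ⟨⟨G, le_antisymm (hub G) ?_⟩, by rintro x ⟨H, rfl⟩; exact hub H⟩
    push_cast at hG
    exact hG
  · have hub : ∀ G : SimpleGraph (Fin (276 * k)), lam G 24 ≤ 28 * (k : ℝ) - 1 := by
      intro G
      refine (hU (276 * k) 24 G (by norm_num) (by omega)).trans (le_of_eq ?_)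
      push_cast
      rw [show (24 : ℝ) + 1 = 25 by norm_num, s25]
      ring
    obtain ⟨G, hG⟩ := g276.upper hk (n := 276 * k) (by simp [ZMod.card]) (by omega)
    refine ⟨⟨G, le_antisymm (hub G) ?_⟩, by rintro x ⟨H, rfl⟩; exact hub H⟩
    push_cast at hG
    exact hG

theorem lower :
    (∀ (n j : ℕ) (G : SimpleGraph (Fin n)), 1 ≤ j → j ≤ n →
      -((2 + ((j : ℝ) - 1) * √((j : ℝ) + 2)) / (2 * j * (j + 1)) * n) ≤ lam G (n + 1 - j)) ∧
    (∀ k : ℕ, 1 ≤ k →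
      IsLeast (eigSet (3 * k - 1) (3 * k)) (-k) ∧
      IsLeast (eigSet (12 * k - 2) (12 * k)) (-((1 + √5) * k)) ∧
      IsLeast (eigSet (28 * k - 6) (28 * k)) (-(5 * k)) ∧
      IsLeast (eigSet (276 * k - 22) (276 * k)) (-(28 * k))) := by
  have hU : ∀ (n j : ℕ) (G : SimpleGraph (Fin n)), 1 ≤ j → j ≤ n →
      -((2 + ((j : ℝ) - 1) * √((j : ℝ) + 2)) / (2 * j * (j + 1)) * n) ≤ lam G (n + 1 - j) := by
    intro n j G hj hjn
    have h := le_lam G hj (by rw [Fintype.card_fin]; exact hjn)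
    rwa [Fintype.card_fin] at h
  refine ⟨hU, fun k hk => ?_⟩
  have s4 : √(4 : ℝ) = 2 := by
    rw [show (4 : ℝ) = 2 ^ 2 by norm_num]; exact Real.sqrt_sq (by norm_num)
  have s9 : √(9 : ℝ) = 3 := by
    rw [show (9 : ℝ) = 3 ^ 2 by norm_num]; exact Real.sqrt_sq (by norm_num)
  have s25 : √(25 : ℝ) = 5 := by
    rw [show (25 : ℝ) = 5 ^ 2 by norm_num]; exact Real.sqrt_sq (by norm_num)
  refine ⟨?_, ?_, ?_, ?_⟩
  · have hub : ∀ G : SimpleGraph (Fin (3 * k)), -(k : ℝ) ≤ lam G (3 * k - 1) := by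
      intro G
      refine (le_of_eq ?_).trans (hU (3 * k) 2 G (by norm_num) (by omega))
      push_cast
      rw [show (2 : ℝ) + 2 = 4 by norm_num, s4]
      ring
    obtain ⟨G, hG⟩ := threeCliques.lower hk (by norm_num) (n := 3 * k) (by simp) (by omega)
    rw [one_mul] at hG
    exact ⟨⟨G, le_antisymm hG (hub G)⟩, by rintro x ⟨H, rfl⟩; exact hub H⟩
  · have hub : ∀ G : SimpleGraph (Fin (12 * k)), -((1 + √5) * (k : ℝ)) ≤ lam G (12 * k - 2) := by
      intro G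
      refine (le_of_eq ?_).trans (hU (12 * k) 3 G (by norm_num) (by omega))
      push_cast
      rw [show (3 : ℝ) + 2 = 5 by norm_num]
      ring
    obtain ⟨G, hG⟩ := ico.lower hk (by norm_num) (n := 12 * k) (by simp) (by omega)
    exact ⟨⟨G, le_antisymm hG (hub G)⟩, by rintro x ⟨H, rfl⟩; exact hub H⟩
  · have hub : ∀ G : SimpleGraph (Fin (28 * k)), -(5 * (k : ℝ)) ≤ lam G (28 * k - 6) := by
      intro G
      refine (le_of_eq ?_).trans (hU (28 * k) 7 G (by norm_num) (by omega))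
      push_cast
      rw [show (7 : ℝ) + 2 = 9 by norm_num, s9]
      ring
    obtain ⟨G, hG⟩ := t8.lower hk (by norm_num) (n := 28 * k) (by simp) (by omega)
    push_cast at hG
    exact ⟨⟨G, le_antisymm hG (hub G)⟩, by rintro x ⟨H, rfl⟩; exact hub H⟩
  · have hub : ∀ G : SimpleGraph (Fin (276 * k)), -(28 * (k : ℝ)) ≤ lam G (276 * k - 22) := by
      intro G
      refine (le_of_eq ?_).trans (hU (276 * k) 23 G (by norm_num) (by omega))
      push_cast
      rw [show (23 : ℝ) + 2 = 25 by norm_num, s25]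
      ring
    obtain ⟨G, hG⟩ := g276.lower hk (by norm_num) (n := 276 * k) (by simp [ZMod.card]) (by omega)
    push_cast at hG
    exact ⟨⟨G, le_antisymm hG (hub G)⟩, by rintro x ⟨H, rfl⟩; exact hub H⟩

/-- For `2 ≤ i ≤ n` and `1 ≤ j ≤ n` every graph on `n` vertices satisfies
`λ_i ≤ (2 + (i - 2) √(i + 1)) / (2 i (i - 1)) * n - 1` and
`λ_{n+1-j} ≥ -(2 + (j - 1) √(j + 2)) / (2 j (j + 1)) * n`. The first bound is attained for
`i = 3, 4, 8, 24` and all multiples `n` of `3, 12, 28, 276`, the second one for `j = 2, 3, 7, 23` and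
the same `n`. -/
theorem result :
    (∀ (n : ℕ) (G : SimpleGraph (Fin n)),
      (∀ i : ℕ, 2 ≤ i → i ≤ n →
        lam G i ≤ (2 + ((i : ℝ) - 2) * √((i : ℝ) + 1)) / (2 * i * (i - 1)) * n - 1) ∧
      (∀ j : ℕ, 1 ≤ j → j ≤ n →
        -((2 + ((j : ℝ) - 1) * √((j : ℝ) + 2)) / (2 * j * (j + 1)) * n) ≤ lam G (n + 1 - j))) ∧
    (∀ k : ℕ, 1 ≤ k →
      (IsGreatest (eigSet 3 (3 * k)) (k - 1) ∧ IsLeast (eigSet (3 * k - 1) (3 * k)) (-k)) ∧
      (IsGreatest (eigSet 4 (12 * k)) ((1 + √5) * k - 1) ∧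
        IsLeast (eigSet (12 * k - 2) (12 * k)) (-((1 + √5) * k))) ∧
      (IsGreatest (eigSet 8 (28 * k)) (5 * k - 1) ∧
        IsLeast (eigSet (28 * k - 6) (28 * k)) (-(5 * k))) ∧
      (IsGreatest (eigSet 24 (276 * k)) (28 * k - 1) ∧
        IsLeast (eigSet (276 * k - 22) (276 * k)) (-(28 * k)))) := by
  refine ⟨fun n G => ⟨fun i h1 h2 => upper.1 n i G h1 h2, fun j h1 h2 => lower.1 n j G h1 h2⟩,
    fun k hk => ?_⟩
  obtain ⟨a1, a2, a3, a4⟩ := upper.2 k hk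
  obtain ⟨b1, b2, b3, b4⟩ := lower.2 k hk
  exact ⟨⟨a1, b1⟩, ⟨a2, b2⟩, ⟨a3, b3⟩, ⟨a4, b4⟩⟩

end Pool.Agent.Results.MP_b9b22b_co.SharpBounds
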