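import Pool.Agent.Lib.MP_b9b22b_co.Few.H38.Trans
import Pool.Agent.Lib.MP_b9b22b_co.Few.H38.Limit
import Pool.Agent.Lib.MP_b9b22b_co.Few.H68.Few

/-!
The extremal values `M_i(n)` for `i` near `n` and `m_i(n)` for `i` near `1`.
-/

set_option autoImplicit false

namespace Pool.Agent.Results.MP_b9b22b_co.ZeroRange

open Pool.Agent.Lib.MP_b9b22b_co

/-- There is a constant `c > 0` such that `M_i(n) = 0` for all `i` with `n - c (log n) ^ 2 ≤ i ≤ n`
and `m_i(n) = -1` for all `i` with `2 ≤ i ≤ c (log n) ^ 2`; on the other hand, for every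
`θ > 2 / (2 + √10) = 0.387..` there is a `C` such that `M_i(n) ≥ 1` whenever `n - i ≥ C n ^ θ` and
`m_i(n) ≤ -2` whenever `i ≥ C n ^ θ + 1`. -/
theorem result :
    (∃ c : ℝ, 0 < c ∧ ∀ n i : ℕ, 1 ≤ i → i ≤ n →
      ((n : ℝ) - i ≤ c * Real.log n ^ 2 → IsGreatest (eigSet i n) 0) ∧
      (2 ≤ i → (i : ℝ) ≤ c * Real.log n ^ 2 → IsLeast (eigSet i n) (-1))) ∧
    ∀ θ : ℝ, 2 / (2 + Real.sqrt 10) < θ → ∃ C : ℝ, 0 < C ∧ ∀ n i : ℕ, 1 ≤ i → i ≤ n →
      (C * (n : ℝ) ^ θ ≤ (n : ℝ) - i → ∃ x ∈ eigSet i n, 1 ≤ x) ∧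
      (C * (n : ℝ) ^ θ + 1 ≤ (i : ℝ) → ∃ x ∈ eigSet i n, x ≤ -2) := by
  refine ⟨?_, fun θ hθ => Few.H38.range_theta hθ⟩
  · obtain ⟨C, hC, hfew⟩ := Few.H68.few
    refine ⟨1 / (2 * C ^ 2), by positivity, fun n i hi hin => ?_⟩
    have hlog : 0 ≤ Real.log n := Real.log_natCast_nonneg n
    -- the counts for every `K` with `2 C ^ 2 K ≤ 2 (log n) ^ 2`
    have key : ∀ K : ℕ, 1 ≤ K → (K : ℝ) * C ^ 2 ≤ Real.log n ^ 2 →
        (∀ j, 1 ≤ j → j ≤ K → IsGreatest (eigSet (n + 1 - j) n) 0) ∧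
        (∀ j, 2 ≤ j → j ≤ K → IsLeast (eigSet j n) (-1)) := by
      intro K hK hKn
      have hn0 : (0 : ℝ) < n := by
        have : 1 ≤ n := by omega
        exact_mod_cast this
      have h1 : C * √(K : ℝ) ≤ Real.log n := by
        refine abs_le_of_sq_le_sq' ?_ hlog |>.2
        rw [mul_pow, Real.sq_sqrt (Nat.cast_nonneg K)]
        linarith
      have h2 : Real.exp (C * √(K : ℝ)) ≤ n := by
        rw [← Real.le_log_iff_exp_le hn0]; exact h1
      have h3 := hfew K hK n h2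
      exact Few.H38.values K n (fun G => (h3 G).1) (fun G => (h3 G).2)
    constructor
    · intro h
      rcases Nat.eq_or_lt_of_le hin with h0 | h0
      · subst h0
        refine ⟨⟨⊥, Few.H38.lam_bot hi le_rfl⟩, ?_⟩
        rintro x ⟨G, rfl⟩
        exact Few.H38.lam_last hi G
      · have hK : ((n - i + 1 : ℕ) : ℝ) * C ^ 2 ≤ Real.log n ^ 2 := by
          have h1 : (1 : ℝ) ≤ (n : ℝ) - i := by
            have : (i : ℝ) + 1 ≤ n := by exact_mod_cast h0
            linarith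
          have h2 : ((n - i + 1 : ℕ) : ℝ) = (n : ℝ) - i + 1 := by
            push_cast [Nat.cast_sub hin]; ring
          have h3 : ((n : ℝ) - i) * (2 * C ^ 2) ≤ Real.log n ^ 2 := by
            have := mul_le_mul_of_nonneg_right h (by positivity : (0 : ℝ) ≤ 2 * C ^ 2)
            have e : 1 / (2 * C ^ 2) * Real.log n ^ 2 * (2 * C ^ 2) = Real.log n ^ 2 := by
              field_simp
            linarith
          rw [h2]
          nlinarith [sq_nonneg C]
        have := (key (n - i + 1) (by omega) hK).1 (n - i + 1) (by omega) le_rfl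
        have e : n + 1 - (n - i + 1) = i := by omega
        rwa [e] at this
    · intro hi2 h
      have hK : (i : ℝ) * C ^ 2 ≤ Real.log n ^ 2 := by
        have h3 : (i : ℝ) * (2 * C ^ 2) ≤ Real.log n ^ 2 := by
          have := mul_le_mul_of_nonneg_right h (by positivity : (0 : ℝ) ≤ 2 * C ^ 2)
          have e : 1 / (2 * C ^ 2) * Real.log n ^ 2 * (2 * C ^ 2) = Real.log n ^ 2 := by
            field_simp
          linarith
        have h4 : 0 ≤ (i : ℝ) * C ^ 2 := by positivity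
        linarith
      exact (key i hi hK).2 i hi2 le_rfl

end Pool.Agent.Results.MP_b9b22b_co.ZeroRange
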